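import Pool.Agent.Y677.RSZ.FinInst

set_option autoImplicit false

/-!
# Narrow progressions in ARBITRARY sets of prime quadruples of both shapes

Let `a = 2` or `a = 4` and call a prime `p` the beginning of a quadruple if `p + a`, `p + 6` and `p + 6 + a` are primes as well;
for `a = 2` this is the shape `(p, p + 2, p + 6, p + 8)`, for `a = 4` the shape `(p, p + 4, p + 6, p + 10)`.
Whatever the set `A` of such primes `p`, all elements of `A` in `(X, X + Y]`, with at most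
`ε Y / (log X) ^ 4` exceptions (an arbitrarily small proportion of the number predicted by Hardy and Littlewood), are
terms of `l`-term arithmetic progressions contained in `A ∩ (X, X + Y]` whose difference is at most a fixed power of
`log X`; here `X ^ θ ≤ Y ≤ X` and `θ > 0` is arbitrarily small. The same holds for the sets of primes `p` for which `p + a`, `p + 6`
and `p + 6 + a` have no prime factor up to a small power of `p`, and of these there are at least `κ X / (log X) ^ 4` in `(X, 2 X]`,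
even with a bounded number of prime factors of `p + a`, `p + 6` and `p + 6 + a`.
-/

namespace Pool.Agent.Results.MP_092512_nt.NarrowProgressions

open Finset Filter

/-- `n` is a term of an `l`-term arithmetic progression contained in `A ∩ (u, v]`, with difference at most `D` -/
def OnProgression (A : Set ℕ) (l : ℕ) (D : ℝ) (u v n : ℕ) : Prop :=
  ∃ m d : ℕ, 1 ≤ d ∧ (d : ℝ) ≤ D ∧ (∀ i < l, m + i * d ∈ A ∧ u < m + i * d ∧ m + i * d ≤ v) ∧ ∃ i < l, n = m + i * d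

/-- all elements of `A` in `(u, v]` with at most `t` exceptions are terms of such progressions -/
def NearlyAll (A : Set ℕ) (l : ℕ) (D : ℝ) (u v : ℕ) (t : ℝ) : Prop :=
  ({n : ℕ | u < n ∧ n ≤ v ∧ n ∈ A ∧ ¬ OnProgression A l D u v n}.ncard : ℝ) ≤ t

/-- `p` is the first of the four primes of a quadruple: of the shape `(p, p + 2, p + 6, p + 8)` for `a = 2`, of the shape
`(p, p + 4, p + 6, p + 10)` for `a = 4` -/
def Quadruple (a p : ℕ) : Prop := p.Prime ∧ (p + a).Prime ∧ (p + 6).Prime ∧ (p + 6 + a).Prime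

/-- `p` is a prime, and all prime factors of `p + a`, `p + 6` and `p + 6 + a` are larger than `p ^ (1 / r)` -/
def PrimeRough (a : ℕ) (r p : ℕ) : Prop :=
  p.Prime ∧ ∀ q : ℕ, q.Prime → (q ∣ p + a ∨ q ∣ p + 6 ∨ q ∣ p + 6 + a) → (p : ℝ) ^ (1 / (r : ℝ)) < q

/-- the three shifts -/
def sh (a : ℕ) : Fin 3 → ℤ := ![(a : ℤ), 6, 6 + (a : ℤ)]

/-- the leading coefficients -/
def lc : Fin 3 → ℕ := ![1, 1, 1]

lemma val0 (a m : ℕ) : ((lc 0 : ℕ) : ℤ) * (m : ℤ) + sh a 0 = ((m + a : ℕ) : ℤ) := by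
  simp [lc, sh]

lemma val1 (a m : ℕ) : ((lc 1 : ℕ) : ℤ) * (m : ℤ) + sh a 1 = ((m + 6 : ℕ) : ℤ) := by
  simp [lc, sh]

lemma val2 (a m : ℕ) : ((lc 2 : ℕ) : ℤ) * (m : ℤ) + sh a 2 = ((m + 6 + a : ℕ) : ℤ) := by
  simp [lc, sh]
  ring

lemma hR (a : ℕ) (r m : ℕ) (hm : PrimeRough a r m) (i : Fin 3) (p : ℕ) (hp : p.Prime)
    (hd : (p : ℤ) ∣ ((lc i : ℕ) : ℤ) * (m : ℤ) + sh a i) : (m : ℝ) ^ (1 / (r : ℝ)) < p := by
  apply hm.2 p hp
  fin_cases i
  · have h1 : (p : ℤ) ∣ ((lc 0 : ℕ) : ℤ) * (m : ℤ) + sh a 0 := hd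
    rw [val0] at h1
    exact Or.inl (Int.natCast_dvd_natCast.1 h1)
  · have h1 : (p : ℤ) ∣ ((lc 1 : ℕ) : ℤ) * (m : ℤ) + sh a 1 := hd
    rw [val1] at h1
    exact Or.inr (Or.inl (Int.natCast_dvd_natCast.1 h1))
  · have h1 : (p : ℤ) ∣ ((lc 2 : ℕ) : ℤ) * (m : ℤ) + sh a 2 := hd
    rw [val2] at h1
    exact Or.inr (Or.inr (Int.natCast_dvd_natCast.1 h1))

lemma hA1 (a : ℕ) (r m : ℕ)
    (h : ∀ i : Fin 3, ∀ p : ℕ, p.Prime → (p : ℤ) ∣ ((lc i : ℕ) : ℤ) * (m : ℤ) + sh a i →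
      (m : ℝ) ^ (1 / (r : ℝ)) < (p : ℝ)) (q : ℕ) (hq : q.Prime) (hd : q ∣ m + a ∨ q ∣ m + 6 ∨ q ∣ m + 6 + a) :
    (m : ℝ) ^ (1 / (r : ℝ)) < (q : ℝ) := by
  rcases hd with hd | hd | hd
  · exact h 0 q hq (by rw [val0]; exact Int.natCast_dvd_natCast.2 hd)
  · exact h 1 q hq (by rw [val1]; exact Int.natCast_dvd_natCast.2 hd)
  · exact h 2 q hq (by rw [val2]; exact Int.natCast_dvd_natCast.2 hd)

lemma hA2 (a : ℕ) (r m : ℕ)
    (h : ∀ i : Fin 3, (((lc i : ℕ) : ℤ) * (m : ℤ) + sh a i).natAbs.primeFactorsList.length ≤ r) :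
    (m + a).primeFactorsList.length ≤ r ∧ (m + 6).primeFactorsList.length ≤ r ∧
      (m + 6 + a).primeFactorsList.length ≤ r := by
  have h0 := h 0
  have h1 := h 1
  have h2 := h 2
  rw [val0, Int.natAbs_natCast] at h0
  rw [val1, Int.natAbs_natCast] at h1
  rw [val2, Int.natAbs_natCast] at h2
  exact ⟨h0, h1, h2⟩

lemma hpos : ∀ i : Fin 3, 0 < lc i := by
  intro i
  fin_cases i <;> norm_num [lc]

/-- the first prime of a quadruple satisfies this -/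
lemma prime_rough (a : ℕ) (r : ℕ) (hr : 2 ≤ r) (p : ℕ) (h : Quadruple a p) : PrimeRough a r p := by
  refine ⟨h.1, fun q hq hd => ?_⟩
  have h2 := h.1.two_le
  rcases hd with hd | hd | hd
  · have h1 : q = p + a := (Nat.prime_dvd_prime_iff_eq hq h.2.1).1 hd
    exact Pool.Agent.TH977.PW.rpow_lt_of_le r p q hr h.1.two_le (by omega)
  · have h1 : q = p + 6 := (Nat.prime_dvd_prime_iff_eq hq h.2.2.1).1 hd
    exact Pool.Agent.TH977.PW.rpow_lt_of_le r p q hr h.1.two_le (by omega)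
  · have h1 : q = p + 6 + a := (Nat.prime_dvd_prime_iff_eq hq h.2.2.2).1 hd
    exact Pool.Agent.TH977.PW.rpow_lt_of_le r p q hr h.1.two_le (by omega)

open Classical in
lemma out_eq (A : Set ℕ) (l : ℕ) (D : ℝ) (u v : ℕ) :
    ({n : ℕ | u < n ∧ n ≤ v ∧ n ∈ A ∧ ¬ OnProgression A l D u v n}.ncard : ℝ) =
      (Pool.Agent.TH977.PW.N (Pool.Agent.Y677.RSZ.Outside A l D u v) u v : ℝ) := by
  unfold Pool.Agent.TH977.PW.N
  rw [← Set.ncard_coe_finset]
  congr 2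
  ext n
  rw [mem_coe, mem_filter, mem_Ioc]
  constructor
  · rintro ⟨h1, h2, h3, h4⟩
    exact ⟨⟨h1, h2⟩, h3, h4⟩
  · rintro ⟨⟨h1, h2⟩, h3, h4⟩
    exact ⟨h1, h2, h3, h4⟩

/-- no local obstruction: if `n`, `n + a`, `n + 6`, `n + 6 + a` are four primes larger than `p`, or `p` is larger than them -/
lemma local_ok (a n p : ℕ) (hp : p.Prime) (h0 : n.Prime) (h1 : (n + a).Prime) (h2 : (n + 6).Prime) (h3 : (n + 6 + a).Prime)
    (hne : p ≠ n ∧ p ≠ n + a ∧ p ≠ n + 6 ∧ p ≠ n + 6 + a) :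
    ¬ p ∣ n ∧ ∀ i : Fin 3, ¬ (p : ℤ) ∣ ((lc i : ℕ) : ℤ) * (n : ℤ) + sh a i := by
  refine ⟨fun h => hne.1 ((Nat.prime_dvd_prime_iff_eq hp h0).1 h), fun i h => ?_⟩
  fin_cases i
  · have h' : (p : ℤ) ∣ ((lc 0 : ℕ) : ℤ) * (n : ℤ) + sh a 0 := h
    rw [val0] at h'
    exact hne.2.1 ((Nat.prime_dvd_prime_iff_eq hp h1).1 (Int.natCast_dvd_natCast.1 h'))
  · have h' : (p : ℤ) ∣ ((lc 1 : ℕ) : ℤ) * (n : ℤ) + sh a 1 := h
    rw [val1] at h'
    exact hne.2.2.1 ((Nat.prime_dvd_prime_iff_eq hp h2).1 (Int.natCast_dvd_natCast.1 h'))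
  · have h' : (p : ℤ) ∣ ((lc 2 : ℕ) : ℤ) * (n : ℤ) + sh a 2 := h
    rw [val2] at h'
    exact hne.2.2.2 ((Nat.prime_dvd_prime_iff_eq hp h3).1 (Int.natCast_dvd_natCast.1 h'))

lemma adm (a : ℕ) (ha : a = 2 ∨ a = 4) (p : ℕ) (hp : p.Prime) :
    ∃ m : ℕ, ¬ p ∣ m ∧ ∀ i : Fin 3, ¬ (p : ℤ) ∣ ((lc i : ℕ) : ℤ) * (m : ℤ) + sh a i := by
  rcases ha with rfl | rfl
  · by_cases hle : p ≤ 19
    · exact ⟨101, local_ok 2 101 p hp (by norm_num) (by norm_num) (by norm_num) (by norm_num) (by omega)⟩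
    · exact ⟨11, local_ok 2 11 p hp (by norm_num) (by norm_num) (by norm_num) (by norm_num) (by omega)⟩
  · by_cases hle : p ≤ 17
    · exact ⟨37, local_ok 4 37 p hp (by norm_num) (by norm_num) (by norm_num) (by norm_num) (by omega)⟩
    · exact ⟨7, local_ok 4 7 p hp (by norm_num) (by norm_num) (by norm_num) (by norm_num) (by omega)⟩

lemma sh_ne (a : ℕ) (ha : a = 2 ∨ a = 4) (i : Fin 3) : sh a i ≠ 0 := by
  rcases ha with rfl | rfl <;> fin_cases i <;> norm_num [sh]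

lemma sh_inj (a : ℕ) (ha : a = 2 ∨ a = 4) (i j : Fin 3) (h : sh a i = sh a j) : i = j := by
  rcases ha with rfl | rfl <;> fin_cases i <;> fin_cases j <;> first | rfl | (exfalso; revert h; norm_num [sh])

/-- **Narrow progressions in arbitrary sets of prime quadruples of both shapes** (`a = 2`: `(p, p + 2, p + 6, p + 8)`,
`a = 4`: `(p, p + 4, p + 6, p + 10)`). -/
theorem result (a : ℕ) (ha : a = 2 ∨ a = 4) (θ : ℝ) (hθ : 0 < θ) (hθ1 : θ ≤ 1) :
    -- prime quadruples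
    (∀ l : ℕ, 2 ≤ l → ∀ ε : ℝ, 0 < ε → ∃ B : ℕ, ∀ᶠ X : ℕ in atTop, ∀ Y : ℕ, (X : ℝ) ^ θ ≤ Y → Y ≤ X →
      ∀ A : Set ℕ, (∀ p ∈ A, Quadruple a p) →
        NearlyAll A l (Real.log X ^ B) X (X + Y) (ε * (Y / Real.log X ^ 4))) ∧
    -- a prime and three rough numbers
    ∃ r₀ : ℕ, ∀ r : ℕ, r₀ ≤ r →
      (∀ l : ℕ, 2 ≤ l → ∀ ε : ℝ, 0 < ε → ∃ B : ℕ, ∀ᶠ X : ℕ in atTop, ∀ Y : ℕ,
        (X : ℝ) ^ θ ≤ Y → Y ≤ X → ∀ A : Set ℕ, (∀ p ∈ A, PrimeRough a r p) →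
          NearlyAll A l (Real.log X ^ B) X (X + Y) (ε * (Y / Real.log X ^ 4))) ∧
      ∃ κ : ℝ, 0 < κ ∧ ∀ᶠ X : ℕ in atTop, κ * (X / Real.log X ^ 4) ≤
        ({p : ℕ | X < p ∧ p ≤ 2 * X ∧ PrimeRough a r p ∧ (p + a).primeFactorsList.length ≤ r ∧
          (p + 6).primeFactorsList.length ≤ r ∧ (p + 6 + a).primeFactorsList.length ≤ r}.ncard : ℝ) := by
  classical
  obtain ⟨r0, hr0, h⟩ := Pool.Agent.Y677.RSZ.narrow_lin_prime (fun i => lc i) (fun i => sh a i)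
    hpos (fun i => by fin_cases i <;> exact isCoprime_one_left)
    (fun i j _ h => sh_inj a ha i j (by simpa using h))
    (fun i h => sh_ne a ha i h.2) (fun p hp => adm a ha p hp)
    (fun r => {p | PrimeRough a r p})
    (fun r => {p | PrimeRough a r p ∧ (p + a).primeFactorsList.length ≤ r ∧ (p + 6).primeFactorsList.length ≤ r ∧
      (p + 6 + a).primeFactorsList.length ≤ r}) 4 (by rw [Fintype.card_fin])
    (fun r m hr hm => ⟨fun p hp hd => Pool.Agent.TH977.PW.rpow_lt_dvd r m p hr hm.1 hp hd,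
      fun i p hp hd => hR a r m hm i p hp hd⟩)
    (fun r m hr hm hm2 hm3 => ⟨⟨hm, fun q hq hd => hA1 a r m hm2 q hq hd⟩,
      hA2 a r m hm3⟩) θ hθ hθ1
  have key : ∀ r : ℕ, r0 ≤ r → ∀ l : ℕ, 2 ≤ l → ∀ ε : ℝ, 0 < ε → ∃ B : ℕ, ∀ᶠ X : ℕ in atTop, ∀ Y : ℕ,
      (X : ℝ) ^ θ ≤ Y → Y ≤ X → ∀ A : Set ℕ, (∀ p ∈ A, PrimeRough a r p) →
        NearlyAll A l (Real.log X ^ B) X (X + Y) (ε * (Y / Real.log X ^ 4)) := by
    intro r hr l hl ε hε
    obtain ⟨B, hB⟩ := (h r hr).2 l hl ε hε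
    refine ⟨B, ?_⟩
    filter_upwards [hB] with X hX Y hXY hYX A hA
    have h1 := hX Y hXY hYX A (fun p hp => hA p hp)
    unfold NearlyAll
    rw [out_eq]
    calc _ ≤ ε * Y / Real.log X ^ 4 := h1
      _ = _ := by ring
  refine ⟨?_, r0, fun r hr => ⟨key r hr, ?_⟩⟩
  · intro l hl ε hε
    obtain ⟨B, hB⟩ := key r0 le_rfl l hl ε hε
    refine ⟨B, ?_⟩
    filter_upwards [hB] with X hX Y hXY hYX A hA
    exact hX Y hXY hYX A (fun p hp => prime_rough a r0 hr0 p (hA p hp))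
  · obtain ⟨κ, hκ, h2⟩ := (h r hr).1
    refine ⟨κ, hκ, ?_⟩
    filter_upwards [h2] with X hX
    have h4 : {p : ℕ | X < p ∧ p ≤ 2 * X ∧ PrimeRough a r p ∧ (p + a).primeFactorsList.length ≤ r ∧
          (p + 6).primeFactorsList.length ≤ r ∧ (p + 6 + a).primeFactorsList.length ≤ r} =
        (((Ioc X (2 * X)).filter (fun m => m ∈ {p | PrimeRough a r p ∧ (p + a).primeFactorsList.length ≤ r ∧
          (p + 6).primeFactorsList.length ≤ r ∧ (p + 6 + a).primeFactorsList.length ≤ r}) :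
          Finset ℕ) : Set ℕ) := by
      ext n
      rw [mem_coe, mem_filter, mem_Ioc]
      constructor
      · rintro ⟨g1, g2, g3⟩
        exact ⟨⟨g1, g2⟩, g3⟩
      · rintro ⟨⟨g1, g2⟩, g3⟩
        exact ⟨g1, g2, g3⟩
    rw [h4, Set.ncard_coe_finset]
    unfold Pool.Agent.TH977.PW.N at hX
    calc κ * (X / Real.log X ^ 4) = κ * X / Real.log X ^ 4 := by ring
      _ ≤ _ := hX
      _ = _ := by
        norm_cast
        exact congrArg card (Finset.ext fun n => by simp only [mem_filter])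

end Pool.Agent.Results.MP_092512_nt.NarrowProgressions
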