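import Pool.Agent.Y843.AC.HLD

/-!
# Progressions of prime quadruples of both shapes: the exact order of their number

Let `a = 2` (quadruples `n, n + 2, n + 6, n + 8`) or `a = 4` (quadruples `n, n + 4, n + 6, n + 10`), and let `k ≥ 1`. We count the
arithmetic progressions of `k` numbers `n` in `(y₁, y₂]`, with differences at most `D`, which are the first members of quadruples of
primes or almost primes; the order of magnitude expected from the conjecture of Hardy and Littlewood is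
`(y₂ - y₁) D / log ^ (4 k) x` for windows `(y₁, y₂] ⊆ (0, x]` and `D` larger than a power of `log x`.

1. For every set `M` of scales `x`, the lower bound of the right order `N(x) ≥ c x / log ^ 4 x` for the number of prime quadruples
   up to `x` holds on `M` if and only if the number of the progressions is of the exact order `x D / log ^ (4 k) x` on `M`, for all `D`
   between a power of `log x` and `x`, and if and only if the lower bound of this order holds for one single `D` for every `x`.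
2. In every window of length at least `x ^ θ` the number of the progressions of prime quadruples is at most of the expected order.
3. Unconditionally: for every `h` in `{a, 6, 6 + a}`, the number of the progressions of `k` primes `n` such that `n + h` is a product of
   at most two primes `> x ^ (1/9)` and all of `n + a`, `n + 6`, `n + 6 + a` are products of at most `j` primes `> x ^ (1/j)` is of the exact
   expected order `(y₂ - y₁) D / log ^ (4 k) x`, in all windows of length at least `θ x` and for all `D` between a power of `log x` and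
   the length of the window (`j` is absolute).
-/

set_option autoImplicit false

namespace Pool.Agent.Results.MP_092512_nt.ProgressionsOfQuadruples

open Finset

/-- `n` is the first member of a prime quadruple: `n, n + 2, n + 6, n + 8` for `a = 2` and `n, n + 4, n + 6, n + 10` for `a = 4`. -/
def Quadruple (a n : ℕ) : Prop := n.Prime ∧ (n + a).Prime ∧ (n + 6).Prime ∧ (n + 6 + a).Prime

instance (a n : ℕ) : Decidable (Quadruple a n) := inferInstanceAs (Decidable (_ ∧ _))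

/-- The first members of prime quadruples in `(y₁, y₂]`. In the problem `N₁(x)` is the number of elements of `Quads 2 0 x`, and `N₂(x)`
is the number of elements of `Quads 4 0 x`. -/
def Quads (a y₁ y₂ : ℕ) : Finset ℕ := (Ioc y₁ y₂).filter (Quadruple a)

/-- `m` is a product of at most `j` primes, all of them larger than `w`. -/
def Almost (j : ℕ) (w : ℝ) (m : ℕ) : Prop :=
  m.primeFactorsList.length ≤ j ∧ ∀ q : ℕ, q.Prime → q ∣ m → w < q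

open Classical in
/-- The primes `n > x ^ (1/j)` in `(y₁, y₂]` for which `n + h` is a product of at most two primes, both larger than
`x ^ (1/9)`, and `n + a`, `n + 6` and `n + 6 + a` are products of at most `j` primes larger than `x ^ (1/j)`. -/
noncomputable def Chen (j x a h : ℕ) (y₁ y₂ : ℕ) : Finset ℕ :=
  (Ioc y₁ y₂).filter (fun n : ℕ => n.Prime ∧ (x : ℝ) ^ (1 / (j : ℝ)) < n ∧ Almost 2 ((x : ℝ) ^ (1 / 9 : ℝ)) (n + h) ∧
    Almost j ((x : ℝ) ^ (1 / (j : ℝ))) (n + a) ∧ Almost j ((x : ℝ) ^ (1 / (j : ℝ))) (n + 6) ∧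
    Almost j ((x : ℝ) ^ (1 / (j : ℝ))) (n + 6 + a))

open Classical in
/-- The number of the progressions `n, n + d, …, n + (k - 1) d` in `S` with `1 ≤ d ≤ D`. -/
noncomputable def AP (k D : ℕ) (S : Finset ℕ) : ℕ :=
  ((S ×ˢ Icc 1 D).filter (fun q => ∀ j < k, q.1 + j * q.2 ∈ S)).card

/-- The expected order `(y₂ - y₁) D / log ^ (4 k) x` of the number of progressions. -/
noncomputable def E (k x y₁ y₂ D : ℕ) : ℝ := ((y₂ : ℝ) - y₁) * D / Real.log x ^ (4 * k)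

/-- For all `D` between `log ^ B x` and `x`, the number of the progressions of `k` prime quadruples up to `x`, with
differences at most `D`, is between `c` and `C` times the expected order. -/
def ExactOrder (a k B : ℕ) (c C : ℝ) (x : ℕ) : Prop :=
  ∀ D : ℕ, Real.log x ^ B ≤ D → D ≤ x →
    c * E k x 0 x D ≤ AP k D (Quads a 0 x) ∧ (AP k D (Quads a 0 x) : ℝ) ≤ C * E k x 0 x D

/-- There are at least `c x / log ^ 4 x` prime quadruples up to `x`, for the large `x` of the set `M` of scales. -/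
def RightOrderOn (a : ℕ) (M : Set ℕ) : Prop :=
  ∃ c : ℝ, 0 < c ∧ ∃ x₀ : ℕ, ∀ x ∈ M, x₀ ≤ x → c * (x / Real.log x ^ 4) ≤ (Quads a 0 x).card

/-! ### The translation -/

/-- the set of shifts -/
def T (a : ℕ) : Finset ℤ := {0, (a : ℤ), 6, 6 + (a : ℤ)}

lemma T_all (a : ℕ) (P : ℤ → Prop) : (∀ t ∈ T a, P t) ↔ P 0 ∧ P a ∧ P 6 ∧ P (6 + a) := by
  simp [T]

lemma T_card {a : ℕ} (ha : a = 2 ∨ a = 4) : (T a).card = 4 := by
  rcases ha with rfl | rfl <;> rfl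

lemma T_adm {a : ℕ} (ha : a = 2 ∨ a = 4) : Pool.Agent.Y843.AC.HL.Adm (T a) := by
  intro q hq
  by_cases h5 : 5 ≤ q
  · refine lt_of_le_of_lt card_image_le ?_
    rw [T_card ha]
    omega
  · have h2 := hq.two_le
    have hq' : q = 2 ∨ q = 3 := by
      interval_cases q
      · exact Or.inl rfl
      · exact Or.inr rfl
      · exact absurd hq (by norm_num)
    rcases ha with rfl | rfl <;> rcases hq' with rfl | rfl <;> decide

lemma tup {a : ℕ} (ha : a = 2 ∨ a = 4) {x : ℕ} (hx : 10 ≤ x) : Pool.Agent.Y843.AC.HL.Tup 4 x (T a) := by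
  refine ⟨T_card ha, T_adm ha, ?_⟩
  have hx' : (10 : ℤ) ≤ x := by exact_mod_cast hx
  refine (T_all a fun t => |t| ≤ (x : ℤ)).2 ⟨?_, ?_, ?_, ?_⟩
  · rw [abs_zero]; omega
  · rcases ha with rfl | rfl <;> norm_num <;> omega
  · norm_num; omega
  · rcases ha with rfl | rfl <;> norm_num <;> omega

/-- the singular series -/
noncomputable def G (a : ℕ) : ℝ := Pool.Agent.Y843.AC.HL.Sing (T a)

lemma gg_eq {a : ℕ} (ha : a = 2 ∨ a = 4) (x : ℕ) : Pool.Agent.Y843.AC.HL.gg (T a) x = G a / Real.log x ^ 4 := by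
  unfold Pool.Agent.Y843.AC.HL.gg G
  rw [T_card ha]

lemma G_pos {a : ℕ} (ha : a = 2 ∨ a = 4) : 0 < G a := by
  have h := Pool.Agent.Y843.AC.HL.gg_pos (show 3 ≤ 10 by norm_num) (tup ha (le_refl 10))
  rw [gg_eq ha] at h
  have hl : 0 < Real.log ((10 : ℕ) : ℝ) ^ 4 := by
    have : 0 < Real.log ((10 : ℕ) : ℝ) := Real.log_pos (by norm_num)
    positivity
  by_contra hcon
  rw [not_lt] at hcon
  have := div_nonpos_of_nonpos_of_nonneg hcon hl.le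
  linarith

lemma E_eq {a : ℕ} (ha : a = 2 ∨ a = 4) (k x y₁ y₂ D : ℕ) (h : y₁ ≤ y₂) :
    ((y₂ - y₁ : ℕ) : ℝ) * D * Pool.Agent.Y843.AC.HL.gg (T a) x ^ k = G a ^ k * E k x y₁ y₂ D := by
  unfold E
  rw [gg_eq ha, div_pow, ← pow_mul, Nat.cast_sub h]
  ring

lemma quad_iff (a n : ℕ) : (∀ t ∈ T a, ((n : ℤ) + t).natAbs.Prime) ↔ Quadruple a n := by
  rw [T_all a fun t => ((n : ℤ) + t).natAbs.Prime]
  unfold Quadruple
  have h0 : ((n : ℤ) + 0).natAbs = n := by omega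
  have h1 : ((n : ℤ) + (a : ℤ)).natAbs = n + a := by omega
  have h2 : ((n : ℤ) + 6).natAbs = n + 6 := by omega
  have h3 : ((n : ℤ) + (6 + (a : ℤ))).natAbs = n + 6 + a := by omega
  rw [h0, h1, h2, h3]

lemma AP_eq (k D : ℕ) (S : Finset ℕ) : AP k D S = (Pool.Agent.Y843.AC.APs k D S).card := rfl

/-- windows -/
lemma win {x y₁ y₂ : ℕ} {θ : ℝ} (hx : 1 ≤ x) (hy2 : y₂ ≤ x)
    (hy : (x : ℝ) ^ θ ≤ (y₂ : ℝ) - y₁) : y₁ ≤ y₂ ∧
      (x : ℝ) ^ θ ≤ ((y₂ - y₁ : ℕ) : ℝ) ∧ y₂ - y₁ ≤ x ∧ Ioc y₁ y₂ = Ioc y₁ (y₁ + (y₂ - y₁)) := by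
  have h0 : 0 < (x : ℝ) ^ θ := Real.rpow_pos_of_pos (by exact_mod_cast hx) _
  have h12 : y₁ ≤ y₂ := by
    have : (y₁ : ℝ) ≤ y₂ := by linarith
    exact_mod_cast this
  refine ⟨h12, by rw [Nat.cast_sub h12]; exact hy, by omega, ?_⟩
  congr 1
  omega

theorem up {a : ℕ} (ha : a = 2 ∨ a = 4) (k : ℕ) (hk : 1 ≤ k) (u : ℕ) (θ : ℝ) (hu : 1 ≤ u) (hθ : 0 < θ) :
    ∃ C : ℝ, 0 < C ∧ ∃ B x₀ : ℕ, ∀ x : ℕ, x₀ ≤ x → ∀ y₁ y₂ D : ℕ, y₂ ≤ x →
      (x : ℝ) ^ θ ≤ (y₂ : ℝ) - y₁ → Real.log x ^ B ≤ D → ∀ S : Finset ℕ, S ⊆ Ioc y₁ y₂ →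
      (∀ n ∈ S, Pool.Agent.Y843.AC.HL.Tp u x (T a) n) → (AP k D S : ℝ) ≤ C * E k x y₁ y₂ D := by
  obtain ⟨C, hC, B, x₀, h⟩ := Pool.Agent.Y843.AC.HL.rep_up 4 k u hk hu hθ
  have hG := G_pos ha
  refine ⟨C * G a ^ k, by positivity, B, max x₀ 10, ?_⟩
  intro x hx y₁ y₂ D hy2 hy hD S hS hR
  obtain ⟨w1, w3, w4, w5⟩ := win (show 1 ≤ x by omega) hy2 hy
  have := h x ((le_max_left _ _).trans hx) (T a) (tup ha ((le_max_right _ _).trans hx)) y₁ (y₂ - y₁) D w3 w4 hD S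
    (by rwa [← w5]) hR
  rw [E_eq ha k x y₁ y₂ D w1, ← mul_assoc] at this
  exact this

theorem dn {a : ℕ} (ha : a = 2 ∨ a = 4) (k : ℕ) (hk : 1 ≤ k) (u : ℕ) (θ δ : ℝ) (hu : 1 ≤ u) (hθ : 0 < θ) (hδ : 0 < δ) :
    ∃ c : ℝ, 0 < c ∧ ∃ B x₀ : ℕ, ∀ x : ℕ, x₀ ≤ x → ∀ y₁ y₂ D : ℕ, y₂ ≤ x →
      (x : ℝ) ^ θ ≤ (y₂ : ℝ) - y₁ → Real.log x ^ B ≤ D → (D : ℝ) ≤ (y₂ : ℝ) - y₁ →
      ∀ S : Finset ℕ, S ⊆ Ioc y₁ y₂ → (∀ n ∈ S, Pool.Agent.Y843.AC.HL.Tp u x (T a) n) →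
      (δ * (((y₂ : ℝ) - y₁) / Real.log x ^ 4) ≤ S.card → c * E k x y₁ y₂ D ≤ AP k D S) ∧
      (δ * E k x y₁ y₂ D ≤ AP k D S → c * (((y₂ : ℝ) - y₁) / Real.log x ^ 4) ≤ S.card) := by
  have hG := G_pos ha
  obtain ⟨c, hc, B, x₀, h⟩ := Pool.Agent.Y843.AC.HL.rep_dn 4 k u hk hu hθ
    (show 0 < min (δ / G a) (δ / G a ^ k) by positivity)
  have hm : 0 < min (c * G a) (c * G a ^ k) := lt_min (by positivity) (by positivity)
  refine ⟨min (c * G a) (c * G a ^ k), hm, B, max x₀ 10, ?_⟩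
  intro x hx y₁ y₂ D hy2 hy hD hDy S hS hR
  obtain ⟨w1, w3, w4, w5⟩ := win (show 1 ≤ x by omega) hy2 hy
  have hlx : 0 < Real.log x := Real.log_pos (by
    have : 10 ≤ x := (le_max_right _ _).trans hx
    exact_mod_cast (show 1 < x by omega))
  have hL : (0 : ℝ) ≤ (y₂ : ℝ) - y₁ := by
    have : (y₁ : ℝ) ≤ y₂ := by exact_mod_cast w1
    linarith
  have hE : 0 ≤ E k x y₁ y₂ D := by unfold E; positivity
  have h2 := h x ((le_max_left _ _).trans hx) (T a) (tup ha ((le_max_right _ _).trans hx)) y₁ (y₂ - y₁) D w3 w4 hD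
    (by rw [← Nat.cast_sub w1] at hDy; exact_mod_cast hDy) S (by rwa [← w5]) hR
  rw [E_eq ha k x y₁ y₂ D w1, gg_eq ha, Nat.cast_sub w1] at h2
  constructor
  · intro h3
    have h4 : min (δ / G a) (δ / G a ^ k) * (((y₂ : ℝ) - y₁) * (G a / Real.log x ^ 4)) ≤ S.card := by
      refine le_trans ?_ h3
      calc min (δ / G a) (δ / G a ^ k) * (((y₂ : ℝ) - y₁) * (G a / Real.log x ^ 4))
          ≤ δ / G a * (((y₂ : ℝ) - y₁) * (G a / Real.log x ^ 4)) :=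
            mul_le_mul_of_nonneg_right (min_le_left _ _) (by positivity)
        _ = δ * (((y₂ : ℝ) - y₁) / Real.log x ^ 4) := by field_simp
    refine le_trans ?_ (h2.1 h4)
    rw [← mul_assoc]
    exact mul_le_mul_of_nonneg_right (min_le_right _ _) hE
  · intro h3
    have h4 : min (δ / G a) (δ / G a ^ k) * (G a ^ k * E k x y₁ y₂ D) ≤ AP k D S := by
      refine le_trans ?_ h3
      calc min (δ / G a) (δ / G a ^ k) * (G a ^ k * E k x y₁ y₂ D)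
          ≤ δ / G a ^ k * (G a ^ k * E k x y₁ y₂ D) :=
            mul_le_mul_of_nonneg_right (min_le_right _ _) (by positivity)
        _ = δ * E k x y₁ y₂ D := by field_simp
    refine le_trans ?_ (h2.2 h4)
    calc min (c * G a) (c * G a ^ k) * (((y₂ : ℝ) - y₁) / Real.log x ^ 4)
        ≤ c * G a * (((y₂ : ℝ) - y₁) / Real.log x ^ 4) :=
          mul_le_mul_of_nonneg_right (min_le_left _ _) (by positivity)
      _ = c * (((y₂ : ℝ) - y₁) * (G a / Real.log x ^ 4)) := by ring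

lemma Quads_sub (a y₁ y₂ : ℕ) : Quads a y₁ y₂ ⊆ Ioc y₁ y₂ := filter_subset _ _

lemma Quads_Tp (a y₁ y₂ u x : ℕ) : ∀ n ∈ Quads a y₁ y₂, Pool.Agent.Y843.AC.HL.Tp u x (T a) n := fun n hn =>
  Or.inl ((quad_iff a n).2 (mem_filter.1 hn).2)

lemma alm_iff (j : ℕ) (w : ℝ) (m : ℕ) (hm : m ≠ 0) (t : ℤ) (ht : t = (m : ℤ)) :
    Pool.Agent.Y843.AC.HL.Alm j w t ↔ Almost j w m := by
  subst ht
  unfold Pool.Agent.Y843.AC.HL.Alm Almost
  constructor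
  · rintro ⟨h1, h2, h3⟩
    refine ⟨by simpa using h2, fun q hq hd => h3 q hq (by exact_mod_cast hd)⟩
  · rintro ⟨h2, h3⟩
    refine ⟨by exact_mod_cast hm, by simpa using h2, fun q hq hd => h3 q hq (by exact_mod_cast hd)⟩

lemma wide {θ : ℝ} (hθ : 0 < θ) : ∃ x₀ : ℕ, ∀ x : ℕ, x₀ ≤ x → (x : ℝ) ^ (1 / 2 : ℝ) ≤ θ * x := by
  have h2 := ((tendsto_rpow_atTop (show (0 : ℝ) < 1 / 2 by norm_num)).comp
    (tendsto_natCast_atTop_atTop (R := ℝ))).eventually (Filter.eventually_ge_atTop (1 / θ))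
  rw [Filter.eventually_atTop] at h2
  obtain ⟨x₀, h⟩ := h2
  refine ⟨max x₀ 1, fun x hx => ?_⟩
  have h3 : 1 / θ ≤ (x : ℝ) ^ (1 / 2 : ℝ) := h x ((le_max_left _ _).trans hx)
  have hx0 : (0 : ℝ) < x := by exact_mod_cast (show 0 < x from (le_max_right _ _).trans hx)
  rw [div_le_iff₀ hθ] at h3
  have h4 : (x : ℝ) = (x : ℝ) ^ (1 / 2 : ℝ) * (x : ℝ) ^ (1 / 2 : ℝ) := by
    rw [← Real.rpow_add hx0]
    norm_num
  have h5 : 0 < (x : ℝ) ^ (1 / 2 : ℝ) := by positivity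
  calc (x : ℝ) ^ (1 / 2 : ℝ) = 1 * (x : ℝ) ^ (1 / 2 : ℝ) := (one_mul _).symm
    _ ≤ (x : ℝ) ^ (1 / 2 : ℝ) * θ * (x : ℝ) ^ (1 / 2 : ℝ) := mul_le_mul_of_nonneg_right h3 h5.le
    _ = θ * ((x : ℝ) ^ (1 / 2 : ℝ) * (x : ℝ) ^ (1 / 2 : ℝ)) := by ring
    _ = θ * x := by rw [← h4]

lemma full (n : ℕ) : (n : ℝ) ^ (1 : ℝ) ≤ (n : ℝ) - (0 : ℕ) := by
  rw [Real.rpow_one]
  simp

open Classical in
lemma Ch_eq (a j x h y₁ y₂ : ℕ) (hj : 1 ≤ j) :
    Chen j x a h y₁ y₂ = Pool.Agent.Y843.AC.HL.Ch j x (T a) h y₁ y₂ := by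
  unfold Pool.Agent.Y843.AC.HL.Ch Chen
  apply filter_congr
  intro n _
  constructor
  · rintro ⟨h2, h0, h3, h4, h5, h6⟩
    have hp := h2.pos
    refine ⟨h2, (alm_iff _ _ (n + h) (by omega) _ (by push_cast; rfl)).2 h3,
      (T_all a fun t => Pool.Agent.Y843.AC.HL.Alm j ((x : ℝ) ^ (1 / (j : ℝ))) (n + t)).2 ⟨?_, ?_, ?_, ?_⟩⟩
    · refine (alm_iff _ _ n (by omega) _ (by push_cast; ring)).2 ⟨?_, ?_⟩
      · rw [Nat.primeFactorsList_prime h2]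
        simpa using hj
      · intro q hq hd
        rw [(Nat.prime_dvd_prime_iff_eq hq h2).1 hd]
        exact h0
    · exact (alm_iff _ _ (n + a) (by omega) _ (by push_cast; rfl)).2 h4
    · exact (alm_iff _ _ (n + 6) (by omega) _ (by push_cast; rfl)).2 h5
    · exact (alm_iff _ _ (n + 6 + a) (by omega) _ (by push_cast; ring)).2 h6
  · rintro ⟨h2, h3, h4⟩
    have h5 := (T_all a fun t => Pool.Agent.Y843.AC.HL.Alm j ((x : ℝ) ^ (1 / (j : ℝ))) (n + t)).1 h4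
    have hp := h2.pos
    exact ⟨h2, ((alm_iff _ _ n (by omega) _ (by push_cast; ring)).1 h5.1).2 n h2 dvd_rfl,
      (alm_iff _ _ (n + h) (by omega) _ (by push_cast; rfl)).1 h3,
      (alm_iff _ _ (n + a) (by omega) _ (by push_cast; rfl)).1 h5.2.1,
      (alm_iff _ _ (n + 6) (by omega) _ (by push_cast; rfl)).1 h5.2.2.1,
      (alm_iff _ _ (n + 6 + a) (by omega) _ (by push_cast; ring)).1 h5.2.2.2⟩

/-- (3) -/
theorem chen {a : ℕ} (ha : a = 2 ∨ a = 4) : ∃ j : ℕ, 1 ≤ j ∧ ∀ k : ℕ, 1 ≤ k → ∃ c C : ℝ, 0 < c ∧ 0 < C ∧ ∃ B : ℕ,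
    ∀ θ : ℝ, 0 < θ → ∃ x₀ : ℕ, ∀ x : ℕ, x₀ ≤ x → ∀ h : ℕ, h = a ∨ h = 6 ∨ h = 6 + a →
      ∀ y₁ y₂ D : ℕ, y₂ ≤ x → θ * x ≤ (y₂ : ℝ) - y₁ → Real.log x ^ B ≤ D → (D : ℝ) ≤ (y₂ : ℝ) - y₁ →
        c * E k x y₁ y₂ D ≤ AP k D (Chen j x a h y₁ y₂) ∧
          (AP k D (Chen j x a h y₁ y₂) : ℝ) ≤ C * E k x y₁ y₂ D := by
  classical
  obtain ⟨j, hj, c₀, hc₀, h0⟩ := Pool.Agent.Y843.AC.HL.chen_low 4
  have hG := G_pos ha
  refine ⟨j, hj, fun k hk => ?_⟩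
  obtain ⟨C, hC, B₁, x₁, h1⟩ := up ha k hk j (1 / 2) hj (by norm_num)
  obtain ⟨c, hc, B₂, x₂, h2⟩ := dn ha k hk j (1 / 2) (c₀ * G a) hj (by norm_num) (by positivity)
  refine ⟨c, C, hc, hC, max B₁ B₂, fun θ hθ => ?_⟩
  obtain ⟨x₃, h3⟩ := h0 θ hθ
  obtain ⟨x₄, h4⟩ := wide hθ
  refine ⟨max (max x₁ x₂) (max (max x₃ x₄) 10), ?_⟩
  intro x hx h hh y₁ y₂ D hy2 hy hD hDy
  have e1 : x₁ ≤ x := by omega
  have e2 : x₂ ≤ x := by omega
  have e3 : x₃ ≤ x := by omega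
  have e4 : x₄ ≤ x := by omega
  have e5 : 10 ≤ x := by omega
  have hl := Pool.Agent.Y843.AC.HL.log_one (show 3 ≤ x by omega)
  have hwin : (x : ℝ) ^ (1 / 2 : ℝ) ≤ (y₂ : ℝ) - y₁ := (h4 x e4).trans hy
  rw [Ch_eq a j x h y₁ y₂ hj]
  have hsub : Pool.Agent.Y843.AC.HL.Ch j x (T a) h y₁ y₂ ⊆ Ioc y₁ y₂ := Pool.Agent.Y843.AC.HL.Ch_sub (T a) h y₁ y₂
  have hR : ∀ n ∈ Pool.Agent.Y843.AC.HL.Ch j x (T a) h y₁ y₂, Pool.Agent.Y843.AC.HL.Tp j x (T a) n := fun n hn =>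
    Or.inr (Pool.Agent.Y843.AC.HL.Ch_rough (T a) h y₁ y₂ n hn)
  refine ⟨?_, h1 x e1 y₁ y₂ D hy2 hwin ((pow_le_pow_right₀ hl (le_max_left _ _)).trans hD) _ hsub hR⟩
  refine (h2 x e2 y₁ y₂ D hy2 hwin ((pow_le_pow_right₀ hl (le_max_right _ _)).trans hD) hDy _ hsub hR).1 ?_
  have h5 := h3 x e3 (T a) (tup ha e5) (by simp [T]) (h : ℤ)
    (by rcases hh with rfl | rfl | rfl <;> simp [T])
    (by rcases ha with rfl | rfl <;> rcases hh with rfl | rfl | rfl <;> norm_num) y₁ y₂ hy2 hy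
  rw [gg_eq ha] at h5
  calc c₀ * G a * (((y₂ : ℝ) - y₁) / Real.log x ^ 4) = c₀ * (((y₂ : ℝ) - y₁) * (G a / Real.log x ^ 4)) := by ring
    _ ≤ _ := h5

/-- (1) -/
theorem order {a : ℕ} (ha : a = 2 ∨ a = 4) (k : ℕ) (hk : 1 ≤ k) (M : Set ℕ) :
    (RightOrderOn a M ↔ ∃ c C : ℝ, 0 < c ∧ 0 < C ∧ ∃ B x₀ : ℕ, ∀ x ∈ M, x₀ ≤ x → ExactOrder a k B c C x) ∧
    (RightOrderOn a M ↔ ∃ c : ℝ, 0 < c ∧ ∀ B : ℕ, ∃ x₀ : ℕ, ∀ x ∈ M, x₀ ≤ x → ∃ D : ℕ, Real.log x ^ B ≤ D ∧ D ≤ x ∧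
        c * E k x 0 x D ≤ AP k D (Quads a 0 x)) := by
  classical
  have a1 : RightOrderOn a M →
      ∃ c C : ℝ, 0 < c ∧ 0 < C ∧ ∃ B x₀ : ℕ, ∀ x ∈ M, x₀ ≤ x → ExactOrder a k B c C x := by
    rintro ⟨δ, hδ, n₀, h⟩
    obtain ⟨c, hc, B, n₁, h1⟩ := dn ha k hk 1 1 δ le_rfl one_pos hδ
    obtain ⟨C, hC, B', n₂, h2⟩ := up ha k hk 1 1 le_rfl one_pos
    refine ⟨c, C, hc, hC, max B B', max (max n₀ 3) (max n₁ n₂), ?_⟩
    intro x hq hx D hD hDx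
    have hl := Pool.Agent.Y843.AC.HL.log_one (show 3 ≤ x by omega)
    constructor
    · refine (h1 x (by omega) 0 x D le_rfl (full _)
        ((pow_le_pow_right₀ hl (le_max_left _ _)).trans hD) (by simpa using hDx) _ (Quads_sub _ _ _)
        (Quads_Tp _ _ _ _ _)).1 ?_
      simpa using h x hq (by omega)
    · exact h2 x (by omega) 0 x D le_rfl (full _)
        ((pow_le_pow_right₀ hl (le_max_right _ _)).trans hD) _ (Quads_sub _ _ _) (Quads_Tp _ _ _ _ _)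
  have a2 : (∃ c C : ℝ, 0 < c ∧ 0 < C ∧ ∃ B x₀ : ℕ, ∀ x ∈ M, x₀ ≤ x → ExactOrder a k B c C x) →
      ∃ c : ℝ, 0 < c ∧ ∀ B : ℕ, ∃ x₀ : ℕ, ∀ x ∈ M, x₀ ≤ x → ∃ D : ℕ, Real.log x ^ B ≤ D ∧ D ≤ x ∧
        c * E k x 0 x D ≤ AP k D (Quads a 0 x) := by
    rintro ⟨c, C, hc, _, B₀, n₀, h⟩
    refine ⟨c, hc, fun B => ?_⟩
    obtain ⟨n₁, h1⟩ := Pool.Agent.Y843.AC.HL.log_small 1 B one_pos
    obtain ⟨n₂, h2⟩ := Pool.Agent.Y843.AC.HL.log_small 1 B₀ one_pos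
    refine ⟨max n₀ (max n₁ n₂), ?_⟩
    intro x hq hx
    have e1 := h1 x (by omega)
    have e2 := h2 x (by omega)
    rw [one_mul, Real.rpow_one] at e1 e2
    exact ⟨x, e1, le_rfl, (h x hq (by omega) x e2 le_rfl).1⟩
  have a3 : (∃ c : ℝ, 0 < c ∧ ∀ B : ℕ, ∃ x₀ : ℕ, ∀ x ∈ M, x₀ ≤ x → ∃ D : ℕ, Real.log x ^ B ≤ D ∧
        D ≤ x ∧ c * E k x 0 x D ≤ AP k D (Quads a 0 x)) → RightOrderOn a M := by
    rintro ⟨δ, hδ, h⟩
    obtain ⟨c, hc, B, n₁, h1⟩ := dn ha k hk 1 1 δ le_rfl one_pos hδ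
    obtain ⟨n₀, h0⟩ := h B
    refine ⟨c, hc, max n₀ n₁, ?_⟩
    intro x hq hx
    obtain ⟨D, hD, hDx, hE⟩ := h0 x hq ((le_max_left _ _).trans hx)
    have h2 := (h1 x ((le_max_right _ _).trans hx) 0 x D le_rfl (full _) hD
      (by simpa using hDx) _ (Quads_sub _ _ _) (Quads_Tp _ _ _ _ _)).2 hE
    simpa using h2
  exact ⟨⟨a1, fun h => a3 (a2 h)⟩, ⟨fun h => a2 (a1 h), a3⟩⟩

/-- **Progressions of prime quadruples of both shapes.** -/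
theorem result (a : ℕ) (ha : a = 2 ∨ a = 4) :
    -- (1) for every set of scales, the right order for quadruples is equivalent to the right order for their progressions
    (∀ k : ℕ, 1 ≤ k → ∀ M : Set ℕ,
      (RightOrderOn a M ↔ ∃ c C : ℝ, 0 < c ∧ 0 < C ∧ ∃ B x₀ : ℕ, ∀ x ∈ M, x₀ ≤ x → ExactOrder a k B c C x) ∧
      (RightOrderOn a M ↔ ∃ c : ℝ, 0 < c ∧ ∀ B : ℕ, ∃ x₀ : ℕ, ∀ x ∈ M, x₀ ≤ x → ∃ D : ℕ,
        Real.log x ^ B ≤ D ∧ D ≤ x ∧ c * E k x 0 x D ≤ AP k D (Quads a 0 x))) ∧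
    -- (2) the upper bound for the progressions of prime quadruples in all short intervals
    (∀ k : ℕ, 1 ≤ k → ∀ θ : ℝ, 0 < θ → ∃ C : ℝ, 0 < C ∧ ∃ B x₀ : ℕ, ∀ x : ℕ, x₀ ≤ x → ∀ y₁ y₂ D : ℕ, y₂ ≤ x →
      (x : ℝ) ^ θ ≤ (y₂ : ℝ) - y₁ → Real.log x ^ B ≤ D → (AP k D (Quads a y₁ y₂) : ℝ) ≤ C * E k x y₁ y₂ D) ∧
    -- (3) the exact order of the number of progressions of primes `n` with `n + h` a product of two primes and the others almost primes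
    ∃ j : ℕ, 1 ≤ j ∧ ∀ k : ℕ, 1 ≤ k → ∃ c C : ℝ, 0 < c ∧ 0 < C ∧ ∃ B : ℕ,
      ∀ θ : ℝ, 0 < θ → ∃ x₀ : ℕ, ∀ x : ℕ, x₀ ≤ x → ∀ h : ℕ, h = a ∨ h = 6 ∨ h = 6 + a →
        ∀ y₁ y₂ D : ℕ, y₂ ≤ x → θ * x ≤ (y₂ : ℝ) - y₁ → Real.log x ^ B ≤ D → (D : ℝ) ≤ (y₂ : ℝ) - y₁ →
          c * E k x y₁ y₂ D ≤ AP k D (Chen j x a h y₁ y₂) ∧
            (AP k D (Chen j x a h y₁ y₂) : ℝ) ≤ C * E k x y₁ y₂ D := by
  refine ⟨fun k hk M => order ha k hk M, fun k hk θ hθ => ?_, chen ha⟩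
  obtain ⟨C, hC, B, x₀, h⟩ := up ha k hk 1 θ le_rfl hθ
  exact ⟨C, hC, B, x₀, fun x hx y₁ y₂ D h1 h2 h3 => h x hx y₁ y₂ D h1 h2 h3 _ (Quads_sub _ _ _) (Quads_Tp _ _ _ _ _)⟩

end Pool.Agent.Results.MP_092512_nt.ProgressionsOfQuadruples
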