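import Pool.Agent.Y816.PD.UniJ

/-!
# Prime quadruples of both shapes with restricted digits in all short intervals

Let `g ≥ 2` be a base and `K` a large number of digits. For every `i < K` let `A i` be an arbitrary non-empty set of digits. Nothing
is assumed about these sets except that they are not too small on average: the number `|A 0| ⋯ |A (K - 1)|` of the choices of `K`
digits is at least `exp (- c K) g ^ K`, where `c > 0` does not depend on the base. (For example, a digit is missing everywhere and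
the base is large; or the digits at an arbitrary set of at most `c' K` places are prescribed.)

Let `a = 2` (quadruples `m, m + 2, m + 6, m + 8`) or `a = 4` (quadruples `m, m + 4, m + 6, m + 10`) and `E ≥ 0`.
In EVERY interval `(x, x + y)` with `3 g ^ K ≤ y ≤ M g ^ K` and `x ≤ g ^ (E K)` (so that `y` may be an arbitrarily small power of
`x`) the numbers `m` whose last `K` digits belong to the sets `A i`, and such that the four numbers of the quadruple are in the
interval and have at most `r` prime factors, all greater than `g ^ (K / r)`, are counted up to a constant factor: their number is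
at least `κ |A 0| ⋯ |A (K - 1)| / K ^ 4`, the order of magnitude predicted by Hardy and Littlewood, unless there is an obvious
obstruction (no digit `d` in `A 0` such that the quadruple of `d` is prime to `g`). The number of the `m` in the interval with these
digits for which all four numbers are PRIMES is at most `C |A 0| ⋯ |A (K - 1)| / K ^ 4`. The constants are independent of the sets
`A i` and of the intervals.

Proof. The theorem `uni_int` of the starting library `Pool.Agent.Y816.PD`: a sieve for the integers with restricted digits.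
-/

set_option autoImplicit false

namespace Pool.Agent.Results.MP_092512_nt.RestrictedDigits

open Filter Finset

/-- The `i`-th digit of `m` in base `g` (counted from the right, beginning with `0`) belongs to `A i` for all `i < K`. -/
def HasDigits (g K : ℕ) (A : ℕ → Finset ℕ) (m : ℕ) : Prop := ∀ i < K, m / g ^ i % g ∈ A i

/-- The number of the choices of `K` digits in the sets `A i`. -/
def choices (K : ℕ) (A : ℕ → Finset ℕ) : ℕ := ∏ i ∈ range K, (A i).card

/-- `m` has at most `r` prime factors (counted with multiplicity), and all of them are larger than `y ^ (1 / r)`. -/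
def AlmostPrime (y r m : ℕ) : Prop :=
  (∀ p : ℕ, p.Prime → p ∣ m → y < p ^ r) ∧ m.primeFactorsList.length ≤ r

/-- All four numbers of the quadruple `m, m + a, m + 6, m + 6 + a` have the property `P`: this is the shape
`(m, m + 2, m + 6, m + 8)` for `a = 2` and the shape `(m, m + 4, m + 6, m + 10)` for `a = 4`. -/
def Quadruple (a : ℕ) (P : ℕ → Prop) (m : ℕ) : Prop := P m ∧ P (m + a) ∧ P (m + 6) ∧ P (m + 6 + a)

open Classical in
/-- The number of the `m` in the set `T` with digits in the `A i`, which have the property `P`. -/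
noncomputable def count (T : Finset ℕ) (g K : ℕ) (A : ℕ → Finset ℕ) (P : ℕ → Prop) : ℕ :=
  (T.filter fun m => HasDigits g K A m ∧ P m).card

lemma IC_le_count {g K u v : ℕ} {A : ℕ → Finset ℕ} {S : Set ℕ} {P : ℕ → Prop} (h : ∀ n, n ∈ S → P n) :
    Pool.Agent.Y816.PD.IC g K A u v S ≤ count (Ioo u v) g K A P := by
  classical
  unfold Pool.Agent.Y816.PD.IC count
  apply card_le_card
  intro n hn
  have h1 := mem_filter.1 hn
  exact mem_filter.2 ⟨h1.1, h1.2.1, h n h1.2.2⟩

lemma count_le_IC {g K u v : ℕ} {A : ℕ → Finset ℕ} {S : Set ℕ} {P : ℕ → Prop} (h : ∀ n, P n → n ∈ S) :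
    count (Ioo u v) g K A P ≤ Pool.Agent.Y816.PD.IC g K A u v S := by
  classical
  unfold Pool.Agent.Y816.PD.IC count
  apply card_le_card
  intro n hn
  have h1 := mem_filter.1 hn
  exact mem_filter.2 ⟨h1.1, h1.2.1, h n h1.2.2⟩

open Pool.Agent.Y816.PD in
lemma choices_eq (K : ℕ) (A : ℕ → Finset ℕ) : (choices K A : ℝ) = NA K A := by
  unfold choices NA
  push_cast
  rfl

/-- the set of shifts -/
def sh (a : ℕ) : Finset ℕ := {0, a, 6, 6 + a}

lemma sh_card {a : ℕ} (ha : a = 2 ∨ a = 4) : (sh a).card = 4 := by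
  rcases ha with rfl | rfl <;> rfl

lemma sh_all (a m : ℕ) (P : ℕ → Prop) : (∀ h ∈ sh a, P (m + h)) ↔ Quadruple a P m := by
  simp [sh, Quadruple, add_assoc]

/-- no local obstruction -/
lemma adm {a : ℕ} (ha : a = 2 ∨ a = 4) (p : ℕ) (hp : p.Prime) : ∃ m : ℕ, ∀ h ∈ sh a, ¬ p ∣ m + h := by
  have key : ∀ n : ℕ, n.Prime → (n + a).Prime → (n + 6).Prime → (n + 6 + a).Prime →
      (p ≠ n ∧ p ≠ n + a ∧ p ≠ n + 6 ∧ p ≠ n + 6 + a) → ∀ h ∈ sh a, ¬ p ∣ n + h := by
    intro n h0 h1 h2 h3 hne
    refine (sh_all a n fun t => ¬ p ∣ t).2 ⟨fun h => ?_, fun h => ?_, fun h => ?_, fun h => ?_⟩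
    · exact hne.1 ((Nat.prime_dvd_prime_iff_eq hp h0).1 h)
    · exact hne.2.1 ((Nat.prime_dvd_prime_iff_eq hp h1).1 h)
    · exact hne.2.2.1 ((Nat.prime_dvd_prime_iff_eq hp h2).1 h)
    · exact hne.2.2.2 ((Nat.prime_dvd_prime_iff_eq hp h3).1 h)
  rcases ha with rfl | rfl
  · by_cases hle : p ≤ 19
    · exact ⟨101, key 101 (by norm_num) (by norm_num) (by norm_num) (by norm_num) (by omega)⟩
    · exact ⟨11, key 11 (by norm_num) (by norm_num) (by norm_num) (by norm_num) (by omega)⟩
  · by_cases hle : p ≤ 17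
    · exact ⟨37, key 37 (by norm_num) (by norm_num) (by norm_num) (by norm_num) (by omega)⟩
    · exact ⟨7, key 7 (by norm_num) (by norm_num) (by norm_num) (by norm_num) (by omega)⟩

/-- **Prime quadruples of both shapes with restricted digits in all short intervals.** -/
theorem result (a : ℕ) (ha : a = 2 ∨ a = 4) (E : ℕ) :
    ∃ c : ℝ, 0 < c ∧ ∃ r₀ : ℕ, 2 ≤ r₀ ∧ ∀ r : ℕ, r₀ ≤ r → ∀ g : ℕ, 2 ≤ g → ∀ M : ℕ, ∃ κ C : ℝ, 0 < κ ∧ 0 < C ∧
      ∀ᶠ K : ℕ in atTop, ∀ x y : ℕ, 3 * g ^ K ≤ y → y ≤ M * g ^ K → x ≤ g ^ (E * K) →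
        ∀ A : ℕ → Finset ℕ, (∀ i < K, A i ⊆ range g) → (g : ℝ) ^ K ≤ Real.exp (c * K) * choices K A →
          -- four almost primes
          ((∃ d ∈ A 0, Quadruple a (fun n => n.Coprime g) d) →
            κ * choices K A / (K : ℝ) ^ 4 ≤
              count (Ioo x (x + y)) g K A (Quadruple a fun n => n < x + y ∧ AlmostPrime (g ^ K) r n)) ∧
          -- four primes
          (count (Ioo x (x + y)) g K A (Quadruple a Nat.Prime) : ℝ) ≤ C * choices K A / (K : ℝ) ^ 4 := by
  classical
  obtain ⟨c, hc, r0, hr0, h⟩ := Pool.Agent.Y816.PD.uni_int (sh a) (fun p hp => adm ha p hp) 4 (sh_card ha)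
    (by norm_num) E
  refine ⟨c, hc, r0, hr0, fun r hr g hg M => ?_⟩
  obtain ⟨κ, C, hκ, hC, h1⟩ := h r hr g hg M
  refine ⟨κ, C, hκ, hC, ?_⟩
  filter_upwards [h1] with K hK
  intro x y hy1 hy2 hx A hA hprod
  obtain ⟨hlow, hup⟩ := hK x y hy1 hy2 hx A hA (by rw [← choices_eq]; exact hprod)
  rw [← choices_eq] at hlow hup
  constructor
  · rintro ⟨d, hd, hd'⟩
    refine (hlow ⟨d, hd, (sh_all a d fun n => n.Coprime g).2 hd'⟩).trans (Nat.cast_le.2 ?_)
    refine IC_le_count fun n hn => ?_
    exact (sh_all a n fun t => t < x + y ∧ AlmostPrime (g ^ K) r t).1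
      fun h hh => ⟨(hn h hh).1, (hn h hh).2.1, (hn h hh).2.2⟩
  · refine le_trans (Nat.cast_le.2 ?_) hup
    exact count_le_IC fun n hn => (sh_all a n Nat.Prime).2 hn

end Pool.Agent.Results.MP_092512_nt.RestrictedDigits
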